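import Pool.Agent.H370R2.Rect

/-!
# The exact change of the number of zeros from `f_n` to `f_(n+1)` between two free heights (generic version)

`f_0, f_1, ...` is a sequence of entire functions, each the derivative of the one before, symmetric about the imaginary axis, with
zeros in `|Re z| < a`, such that `q_n = f_(n+1)/f_n` has positive real part on `Re z = a`.  Let `T1 < T2` be heights at which `q_n` has
positive real part on `0 < x ≤ a` (free heights).  Then the number of zeros in `T1 < Im z ≤ T2` changes by `(s(T2) - s(T1)) / 2`,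
`s(T) = ± 1` the sign of `Im q_n(iT)`.
-/

set_option autoImplicit false

namespace Pool.Agent.Zk69.GF

open Complex MeasureTheory Filter Topology Set

noncomputable section

/-- the logarithmic derivative -/
def qq (f : ℕ → ℂ → ℂ) (n : ℕ) (z : ℂ) : ℂ := f (n + 1) z / f n z

/-- the class of sequences -/
structure Fam (f : ℕ → ℂ → ℂ) (a : ℝ) : Prop where
  pos : 0 < a
  deriv : ∀ (n : ℕ) (z : ℂ), HasDerivAt (f n) (f (n + 1) z) z
  strip : ∀ (n : ℕ) (z : ℂ), f n z = 0 → |z.re| < a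
  symm : ∀ (n : ℕ) (z : ℂ), qq f n (-(starRingEnd ℂ) z) = -(starRingEnd ℂ) (qq f n z)
  right : ∀ (n : ℕ) (y : ℝ), 0 < (qq f n (⟨a, y⟩ : ℂ)).re

/-- free heights for `f n` -/
structure Fr (f : ℕ → ℂ → ℂ) (a : ℝ) (n : ℕ) (T : ℝ) : Prop where
  re_pos : ∀ x : ℝ, 0 < x → x ≤ a → 0 < (qq f n (⟨x, T⟩ : ℂ)).re
  ne : f n (⟨0, T⟩ : ℂ) ≠ 0
  ne' : f (n + 1) (⟨0, T⟩ : ℂ) ≠ 0

/-- the number of the zeros in `T1 < Im z ≤ T2` -/
def cnt (f : ℕ → ℂ → ℂ) (n : ℕ) (T1 T2 : ℝ) : ℕ :=
  ∑ᶠ s ∈ {s : ℂ | f n s = 0 ∧ T1 < s.im ∧ s.im ≤ T2}, analyticOrderNatAt (f n) s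

variable {f : ℕ → ℂ → ℂ} {a : ℝ}

theorem Fam.diff (h : Fam f a) (n : ℕ) : Differentiable ℂ (f n) := fun z => (h.deriv n z).differentiableAt

theorem q_deriv (h : Fam f a) (n : ℕ) {z : ℂ} (h0 : f n z ≠ 0) (h1 : f (n + 1) z ≠ 0) :
    HasDerivAt (qq f n) ((qq f (n + 1) z - qq f n z) * qq f n z) z := by
  have h2 := (h.deriv (n + 1) z).div (h.deriv n z) h0
  refine h2.congr_deriv ?_
  unfold qq
  field_simp

/-- the points of a horizontal line -/
def ph (T x : ℝ) : ℂ := ⟨x, T⟩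

/-- the points of a vertical line -/
def pv (a y : ℝ) : ℂ := ⟨a, y⟩

theorem ph_deriv (T x : ℝ) : HasDerivAt (ph T) 1 x := by
  have e : ∀ x : ℝ, ph T x = (x : ℂ) + (T : ℂ) * I := fun x => by
    apply Complex.ext <;> simp [ph]
  have h : HasDerivAt (fun x : ℝ => (x : ℂ) + (T : ℂ) * I) 1 x :=
    (Complex.ofRealCLM.hasDerivAt).add_const _
  exact h.congr_of_eventuallyEq (Eventually.of_forall e)

theorem pv_deriv (a y : ℝ) : HasDerivAt (pv a) I y := by
  have e : ∀ y : ℝ, pv a y = (a : ℂ) + (y : ℂ) * I := fun x => by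
    apply Complex.ext <;> simp [pv]
  have h : HasDerivAt (fun y : ℝ => (a : ℂ) + (y : ℂ) * I) (1 * I) y :=
    (Complex.ofRealCLM.hasDerivAt.mul_const I).const_add _
  rw [one_mul] at h
  exact h.congr_of_eventuallyEq (Eventually.of_forall e)

theorem ph_cont (T : ℝ) : Continuous (ph T) := continuous_iff_continuousAt.2 fun x => (ph_deriv T x).continuousAt

theorem pv_cont (a : ℝ) : Continuous (pv a) := continuous_iff_continuousAt.2 fun x => (pv_deriv a x).continuousAt

theorem Fam.ne_line (h : Fam f a) (n : ℕ) (y : ℝ) : f n (pv a y) ≠ 0 := by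
  intro h0
  have := h.strip n _ h0
  have e : (pv a y).re = a := rfl
  rw [e, abs_of_pos h.pos] at this
  exact lt_irrefl _ this

theorem cont_v (h : Fam f a) (n : ℕ) : Continuous fun y : ℝ => qq f n (pv a y) := by
  unfold qq
  exact ((h.diff (n + 1)).continuous.comp (pv_cont a)).div ((h.diff n).continuous.comp (pv_cont a)) (h.ne_line n)

theorem cont_h (h : Fam f a) (n : ℕ) {T : ℝ} (hne : ∀ x : ℝ, f n (ph T x) ≠ 0) :
    Continuous fun x : ℝ => qq f n (ph T x) := by
  unfold qq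
  exact ((h.diff (n + 1)).continuous.comp (ph_cont T)).div ((h.diff n).continuous.comp (ph_cont T)) hne

theorem q_neg (h : Fam f a) (n : ℕ) (T x : ℝ) : qq f n (ph T (-x)) = -(starRingEnd ℂ) (qq f n (ph T x)) := by
  have e : ph T (-x) = -(starRingEnd ℂ) (ph T x) := by
    apply Complex.ext <;> simp [ph]
  rw [e, h.symm]

/-- the horizontal integrals -/
theorem hor (h : Fam f a) (n : ℕ) {T : ℝ} (hne : ∀ x : ℝ, f n (ph T x) ≠ 0) :
    (∫ x in (-a)..a, qq f n (ph T x)).im = 2 * (∫ x in (0 : ℝ)..a, qq f n (ph T x)).im := by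
  have hF := cont_h h n hne
  have hcomm : ∀ u v : ℝ, (∫ x in u..v, qq f n (ph T x)).im = ∫ x in u..v, (qq f n (ph T x)).im := fun u v =>
    (Complex.imCLM.intervalIntegral_comp_comm (hF.intervalIntegrable u v)).symm
  have hci : Continuous fun x => (qq f n (ph T x)).im := continuous_im.comp hF
  rw [hcomm, hcomm, ← intervalIntegral.integral_add_adjacent_intervals (hci.intervalIntegrable (-a) 0)
    (hci.intervalIntegrable 0 a)]
  have h2 : ∫ x in (-a)..0, (qq f n (ph T x)).im = ∫ x in (0 : ℝ)..a, (qq f n (ph T x)).im := by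
    have h3 := intervalIntegral.integral_comp_neg (a := 0) (b := a) (fun x => (qq f n (ph T x)).im)
    rw [neg_zero] at h3
    rw [← h3]
    refine intervalIntegral.integral_congr fun x _ => ?_
    simp only [q_neg h, neg_im, conj_im, neg_neg]
  rw [h2]
  ring

/-- the argument principle -/
theorem residue (h : Fam f a) (n : ℕ) {T1 T2 : ℝ} (h12 : T1 < T2) (hne1 : ∀ x : ℝ, f n (ph T1 x) ≠ 0)
    (hne2 : ∀ x : ℝ, f n (ph T2 x) ≠ 0) :
    {s : ℂ | f n s = 0 ∧ T1 < s.im ∧ s.im ≤ T2}.Finite ∧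
    (∫ x in (0 : ℝ)..a, qq f n (ph T1 x)).im - (∫ x in (0 : ℝ)..a, qq f n (ph T2 x)).im +
      (∫ y in T1..T2, qq f n (pv a y)).re = Real.pi * (cnt f n T1 T2 : ℕ) := by
  have ha := h.pos
  have hset : {s : ℂ | s ∈ Ioo (-a) a ×ℂ Ioo T1 T2 ∧ f n s = 0} = {s : ℂ | f n s = 0 ∧ T1 < s.im ∧ s.im ≤ T2} := by
    ext s
    constructor
    · rintro ⟨hs, h0⟩
      exact ⟨h0, hs.2.1, hs.2.2.le⟩
    · rintro ⟨h0, h1, h2⟩
      refine ⟨⟨abs_lt.1 (h.strip n s h0), ⟨h1, lt_of_le_of_ne h2 fun h3 => ?_⟩⟩, h0⟩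
      apply hne2 s.re
      rw [show ph T2 s.re = s by
        apply Complex.ext
        · rfl
        · exact h3.symm]
      exact h0
  have hbd : ∀ s ∈ Icc (-a) a ×ℂ Icc T1 T2, f n s = 0 → s ∈ Ioo (-a) a ×ℂ Ioo T1 T2 := by
    rintro s ⟨-, hs2⟩ h0
    have h3 : T1 ≤ s.im := hs2.1
    have h4 : s.im ≤ T2 := hs2.2
    refine ⟨abs_lt.1 (h.strip n s h0), ⟨lt_of_le_of_ne h3 ?_, lt_of_le_of_ne h4 ?_⟩⟩
    · intro h5
      apply hne1 s.re
      rw [show ph T1 s.re = s by
        apply Complex.ext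
        · rfl
        · exact h5]
      exact h0
    · intro h5
      apply hne2 s.re
      rw [show ph T2 s.re = s by
        apply Complex.ext
        · rfl
        · exact h5.symm]
      exact h0
  obtain ⟨hf, hres⟩ := H370.rect_residue (f n) (fun _ => 1) (-a) a T1 T2 (by linarith)
    h12 (fun s _ => (h.diff n).analyticAt s) (by fun_prop) hbd
  have hq : ∀ z : ℂ, _root_.deriv (f n) z / f n z * 1 = qq f n z := by
    intro z
    rw [mul_one, (h.deriv n z).deriv]
    rfl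
  simp only [hq] at hres
  rw [hset] at hf hres
  refine ⟨hf, ?_⟩
  have hs : ∑ᶠ s ∈ {s : ℂ | f n s = 0 ∧ T1 < s.im ∧ s.im ≤ T2},
      (H370.mult (f n) s : ℂ) * 1 = ((cnt f n T1 T2 : ℕ) : ℂ) := by
    unfold cnt
    rw [finsum_mem_eq_finite_toFinset_sum _ hf, finsum_mem_eq_finite_toFinset_sum _ hf]
    push_cast
    simp only [mul_one]
    rfl
  rw [hs] at hres
  have hleft : (∫ y in T1..T2, qq f n (⟨-a, y⟩ : ℂ)).re = -(∫ y in T1..T2, qq f n (pv a y)).re := by
    have h1 : ∀ y : ℝ, qq f n (⟨-a, y⟩ : ℂ) = -(starRingEnd ℂ) (qq f n (pv a y)) := by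
      intro y
      rw [← h.symm]
      congr 1
      apply Complex.ext <;> simp [pv]
    have hc := cont_v h n
    have hc' : Continuous fun y : ℝ => qq f n (⟨-a, y⟩ : ℂ) := by
      simp only [h1]
      exact (continuous_conj.comp hc).neg
    have e1 : (∫ y in T1..T2, qq f n (⟨-a, y⟩ : ℂ)).re = ∫ y in T1..T2, (qq f n (⟨-a, y⟩ : ℂ)).re :=
      (Complex.reCLM.intervalIntegral_comp_comm (hc'.intervalIntegrable T1 T2)).symm
    have e2 : (∫ y in T1..T2, qq f n (pv a y)).re = ∫ y in T1..T2, (qq f n (pv a y)).re :=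
      (Complex.reCLM.intervalIntegral_comp_comm (hc.intervalIntegrable T1 T2)).symm
    rw [e1, e2, ← intervalIntegral.integral_neg]
    refine intervalIntegral.integral_congr fun y _ => ?_
    simp only [h1, neg_re, conj_re]
  have him := congrArg Complex.im hres
  have k1 := hor h n hne1
  have k2 := hor h n hne2
  change (∫ x in (-a)..a, qq f n (⟨x, T1⟩ : ℂ)).im = _ at k1
  change (∫ x in (-a)..a, qq f n (⟨x, T2⟩ : ℂ)).im = _ at k2
  have e2 : (2 * (Real.pi : ℂ) * I * ((cnt f n T1 T2 : ℕ) : ℂ)).im = 2 * Real.pi * (cnt f n T1 T2 : ℕ) := by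
    have : (2 * (Real.pi : ℂ) * I * ((cnt f n T1 T2 : ℕ) : ℂ)) = ((2 * Real.pi * (cnt f n T1 T2 : ℕ) : ℝ) : ℂ) * I := by
      push_cast; ring
    rw [this, mul_I_im, ofReal_re]
  rw [e2] at him
  simp only [add_im, sub_im, mul_im, I_re, I_im, zero_mul, one_mul, zero_add] at him
  have e3 : (∫ y in T1..T2, qq f n (⟨a, y⟩ : ℂ)).re = (∫ y in T1..T2, qq f n (pv a y)).re := rfl
  rw [k1, k2, hleft, e3] at him
  linarith

/-- the horizontal difference -/
theorem hor_diff (h : Fam f a) {n : ℕ} {T : ℝ} (hT : Fr f a n T) (h0 : ∀ x : ℝ, f n (ph T x) ≠ 0)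
    (h1 : ∀ x : ℝ, f (n + 1) (ph T x) ≠ 0) :
    (∫ x in (0 : ℝ)..a, qq f (n + 1) (ph T x)).im - (∫ x in (0 : ℝ)..a, qq f n (ph T x)).im =
      arg (qq f n (pv a T)) - arg (qq f n (ph T 0)) := by
  have ha := h.pos
  have c0 := cont_h h n h0
  have c1 := cont_h h (n + 1) h1
  have hne : ∀ x, qq f n (ph T x) ≠ 0 := fun x => div_ne_zero (h1 x) (h0 x)
  have hq0 : (qq f n (ph T 0)).re = 0 := by
    have h2 := congrArg Complex.re (q_neg h n T 0)
    rw [neg_zero, neg_re, conj_re] at h2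
    linarith
  have hd : ∀ x ∈ Set.uIcc (0 : ℝ) a, HasDerivAt (fun x : ℝ => Complex.log (qq f n (ph T x)))
      (qq f (n + 1) (ph T x) - qq f n (ph T x)) x := by
    intro x hx
    rw [Set.uIcc_of_le ha.le] at hx
    have h2 : HasDerivAt (fun x : ℝ => qq f n (ph T x))
        (((qq f (n + 1) (ph T x) - qq f n (ph T x)) * qq f n (ph T x)) * 1) x :=
      (q_deriv h n (h0 x) (h1 x)).comp_of_eq x (ph_deriv T x) rfl
    have hsl : qq f n (ph T x) ∈ slitPlane := by
      rcases hx.1.eq_or_lt with h3 | h3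
      · right
        intro h4
        apply hne 0
        apply Complex.ext
        · exact hq0
        · rw [h3]; exact h4
      · exact Or.inl (hT.re_pos x h3 hx.2)
    have h3 := h2.clog_real hsl
    refine h3.congr_deriv ?_
    rw [mul_one, mul_div_assoc, div_self (hne x), mul_one]
  have hi := intervalIntegral.integral_eq_sub_of_hasDerivAt hd ((c1.sub c0).intervalIntegrable 0 a)
  rw [intervalIntegral.integral_sub (c1.intervalIntegrable _ _) (c0.intervalIntegrable _ _)] at hi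
  have him := congrArg Complex.im hi
  rw [Complex.sub_im, Complex.sub_im, Complex.log_im, Complex.log_im] at him
  exact him

/-- the vertical difference -/
theorem ver_diff (h : Fam f a) (n : ℕ) (T1 T2 : ℝ) :
    (∫ y in T1..T2, qq f (n + 1) (pv a y)).re - (∫ y in T1..T2, qq f n (pv a y)).re =
      arg (qq f n (pv a T2)) - arg (qq f n (pv a T1)) := by
  have c0 := cont_v h n
  have c1 := cont_v h (n + 1)
  have hd : ∀ y ∈ Set.uIcc T1 T2, HasDerivAt (fun y : ℝ => Complex.log (qq f n (pv a y)))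
      (I * (qq f (n + 1) (pv a y) - qq f n (pv a y))) y := by
    intro y _
    have h2 : HasDerivAt (fun y : ℝ => qq f n (pv a y))
        (((qq f (n + 1) (pv a y) - qq f n (pv a y)) * qq f n (pv a y)) * I) y :=
      (q_deriv h n (h.ne_line n y) (h.ne_line (n + 1) y)).comp_of_eq y (pv_deriv a y) rfl
    have h3 := h2.clog_real (Or.inl (h.right n y))
    refine h3.congr_deriv ?_
    have h4 : qq f n (pv a y) ≠ 0 := div_ne_zero (h.ne_line (n + 1) y) (h.ne_line n y)
    field_simp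
  have hi := intervalIntegral.integral_eq_sub_of_hasDerivAt hd
    ((continuous_const.mul (c1.sub c0)).intervalIntegrable T1 T2)
  rw [intervalIntegral.integral_const_mul, intervalIntegral.integral_sub
    (c1.intervalIntegrable _ _) (c0.intervalIntegrable _ _)] at hi
  have him := congrArg Complex.im hi
  rw [Complex.mul_im, I_re, I_im, zero_mul, zero_add, one_mul, Complex.sub_re, Complex.sub_im,
    Complex.log_im, Complex.log_im] at him
  exact him

theorem Fr.all (h : Fam f a) {n : ℕ} {T : ℝ} (hT : Fr f a n T) :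
    (∀ x : ℝ, f n (ph T x) ≠ 0) ∧ ∀ x : ℝ, f (n + 1) (ph T x) ≠ 0 := by
  have key : ∀ x : ℝ, 0 < x → f n (ph T x) ≠ 0 ∧ f (n + 1) (ph T x) ≠ 0 := by
    intro x hx
    rcases le_or_gt x a with h1 | h1
    · have h2 := hT.re_pos x hx h1
      unfold qq at h2
      constructor
      · intro h3
        rw [show (⟨x, T⟩ : ℂ) = ph T x from rfl, h3, div_zero, zero_re] at h2
        exact lt_irrefl _ h2
      · intro h3
        rw [show (⟨x, T⟩ : ℂ) = ph T x from rfl, h3, zero_div, zero_re] at h2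
        exact lt_irrefl _ h2
    · constructor
      · intro h3
        have := h.strip _ _ h3
        have e : (ph T x).re = x := rfl
        rw [e, abs_of_pos hx] at this
        linarith
      · intro h3
        have := h.strip _ _ h3
        have e : (ph T x).re = x := rfl
        rw [e, abs_of_pos hx] at this
        linarith
  -- the symmetry
  have key' : ∀ x : ℝ, x < 0 → f n (ph T x) ≠ 0 ∧ f (n + 1) (ph T x) ≠ 0 := by
    intro x hx
    have h2 := key (-x) (by linarith)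
    have h3 : qq f n (ph T x) ≠ 0 := by
      have h4 := q_neg h n T (-x)
      rw [neg_neg] at h4
      rw [h4]
      intro h5
      rw [neg_eq_zero, map_eq_zero] at h5
      exact (div_ne_zero h2.2 h2.1) h5
    unfold qq at h3
    exact ⟨fun h4 => h3 (by rw [h4, div_zero]), fun h4 => h3 (by rw [h4, zero_div])⟩
  constructor
  · intro x
    rcases lt_trichotomy x 0 with hx | hx | hx
    · exact (key' x hx).1
    · rw [hx]; exact hT.ne
    · exact (key x hx).1
  · intro x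
    rcases lt_trichotomy x 0 with hx | hx | hx
    · exact (key' x hx).2
    · rw [hx]; exact hT.ne'
    · exact (key x hx).2

/-- **the exact step** -/
theorem step (h : Fam f a) {n : ℕ} {T1 T2 : ℝ} (h12 : T1 < T2) (hT1 : Fr f a n T1) (hT2 : Fr f a n T2) :
    Real.pi * ((cnt f (n + 1) T1 T2 : ℝ) - cnt f n T1 T2) =
      arg (qq f n (⟨0, T2⟩ : ℂ)) - arg (qq f n (⟨0, T1⟩ : ℂ)) := by
  obtain ⟨a0, a1⟩ := Fr.all h hT1
  obtain ⟨b0, b1⟩ := Fr.all h hT2
  have r0 := (residue h n h12 a0 b0).2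
  have r1 := (residue h (n + 1) h12 a1 b1).2
  have d1 := hor_diff h hT1 a0 a1
  have d2 := hor_diff h hT2 b0 b1
  have v := ver_diff h n T1 T2
  change _ = arg (qq f n (pv a T2)) - arg (qq f n (⟨0, T2⟩ : ℂ)) at d2
  change _ = arg (qq f n (pv a T1)) - arg (qq f n (⟨0, T1⟩ : ℂ)) at d1
  rw [mul_sub, ← r0, ← r1]
  linarith

/-- the sign at a free height -/
theorem arg_free (h : Fam f a) {n : ℕ} {T : ℝ} (hT : Fr f a n T) :
    (0 < (qq f n (⟨0, T⟩ : ℂ)).im ∧ arg (qq f n (⟨0, T⟩ : ℂ)) = Real.pi / 2) ∨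
      ((qq f n (⟨0, T⟩ : ℂ)).im < 0 ∧ arg (qq f n (⟨0, T⟩ : ℂ)) = -(Real.pi / 2)) := by
  have hre : (qq f n (⟨0, T⟩ : ℂ)).re = 0 := by
    have h2 := congrArg Complex.re (q_neg h n T 0)
    rw [neg_zero, neg_re, conj_re] at h2
    have e : ph T 0 = (⟨0, T⟩ : ℂ) := rfl
    rw [e] at h2
    linarith
  have hne : qq f n (⟨0, T⟩ : ℂ) ≠ 0 := div_ne_zero hT.ne' hT.ne
  have him : (qq f n (⟨0, T⟩ : ℂ)).im ≠ 0 := by
    intro h2
    exact hne (Complex.ext hre h2)
  rcases lt_or_gt_of_ne him with h2 | h2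
  · right
    exact ⟨h2, Complex.arg_eq_neg_pi_div_two_iff.2 ⟨hre, h2⟩⟩
  · left
    exact ⟨h2, Complex.arg_eq_pi_div_two_iff.2 ⟨hre, h2⟩⟩

open Classical in
/-- **the exact step**, with signs: `s(T) = 1` if `Im q_n(iT) > 0`, `-1` otherwise -/
theorem step_sign (h : Fam f a) {n : ℕ} {T1 T2 : ℝ} (h12 : T1 < T2) (hT1 : Fr f a n T1) (hT2 : Fr f a n T2) :
    2 * ((cnt f (n + 1) T1 T2 : ℤ) - cnt f n T1 T2) =
      (if 0 < (qq f n (⟨0, T2⟩ : ℂ)).im then 1 else -1) - (if 0 < (qq f n (⟨0, T1⟩ : ℂ)).im then 1 else -1) := by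
  have h1 := step h h12 hT1 hT2
  have hpi := Real.pi_pos
  have key : ∀ r : ℝ, Real.pi * ((cnt f (n + 1) T1 T2 : ℝ) - cnt f n T1 T2) = Real.pi * r →
      (cnt f (n + 1) T1 T2 : ℝ) - cnt f n T1 T2 = r := fun r hr => mul_left_cancel₀ hpi.ne' hr
  rcases arg_free h hT2 with ⟨p2, q2⟩ | ⟨p2, q2⟩ <;> rcases arg_free h hT1 with ⟨p1, q1⟩ | ⟨p1, q1⟩
  · rw [if_pos p2, if_pos p1]
    have := key 0 (by rw [h1, q2, q1]; ring)
    have h3 : (cnt f (n + 1) T1 T2 : ℝ) = cnt f n T1 T2 := by linarith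
    have h4 : cnt f (n + 1) T1 T2 = cnt f n T1 T2 := by exact_mod_cast h3
    rw [h4]
    ring
  · rw [if_pos p2, if_neg (not_lt.2 p1.le)]
    have := key 1 (by rw [h1, q2, q1]; ring)
    have h3 : (cnt f (n + 1) T1 T2 : ℝ) = cnt f n T1 T2 + 1 := by linarith
    have h4 : cnt f (n + 1) T1 T2 = cnt f n T1 T2 + 1 := by exact_mod_cast h3
    rw [h4]
    push_cast
    ring
  · rw [if_neg (not_lt.2 p2.le), if_pos p1]
    have := key (-1) (by rw [h1, q2, q1]; ring)
    have h3 : (cnt f (n + 1) T1 T2 : ℝ) + 1 = cnt f n T1 T2 := by linarith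
    have h4 : cnt f (n + 1) T1 T2 + 1 = cnt f n T1 T2 := by exact_mod_cast h3
    rw [← h4]
    push_cast
    ring
  · rw [if_neg (not_lt.2 p2.le), if_neg (not_lt.2 p1.le)]
    have := key 0 (by rw [h1, q2, q1]; ring)
    have h3 : (cnt f (n + 1) T1 T2 : ℝ) = cnt f n T1 T2 := by linarith
    have h4 : cnt f (n + 1) T1 T2 = cnt f n T1 T2 := by exact_mod_cast h3
    rw [h4]
    ring

end

end Pool.Agent.Zk69.GF
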